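import Mathlib
import Pool.Agent.W978.QN.Stm

/-!
Trilinear forms: smooth divisors of type (1,1,1) in the product of a projective line and two
projective planes.  Definitions and statements of the parts.
-/

namespace Pool.Agent.W978.QP

open Pool.Agent.W978.QN (nm bx ct cp mnr wv Prim)

/-- The value at `(p, q, r)` of the trilinear form with integer coefficients `b`
(`p`, `q`, `r` are vectors of homogeneous coordinates). -/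
def fv {R : Type*} [CommRing R] (b : Fin 2 → Fin 3 → Fin 3 → ℤ) (p : Fin 2 → R)
    (q r : Fin 3 → R) : R :=
  ∑ i, ∑ j, ∑ k, (b i j k : R) * p i * q j * r k

/-- The divisor is smooth: at no point of it (over the complex numbers) do all partial
derivatives vanish. -/
def Smooth (b : Fin 2 → Fin 3 → Fin 3 → ℤ) : Prop :=
  ∀ (p : Fin 2 → ℂ) (q r : Fin 3 → ℂ), p ≠ 0 → q ≠ 0 → r ≠ 0 → fv b p q r = 0 →
    (∃ v, fv b v q r ≠ 0) ∨ (∃ v, fv b p v r ≠ 0) ∨ (∃ v, fv b p q v ≠ 0)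

/-- The matrix of the bilinear form in the last two arguments (rows: third argument). -/
def mp {R : Type*} [CommRing R] (b : Fin 2 → Fin 3 → Fin 3 → ℤ) (p : Fin 2 → R)
    (k j : Fin 3) : R :=
  ∑ i, (b i j k : R) * p i

/-- The vector of the linear form in the third argument, when the first one is the `i`-th basis
vector and the second one is `q`. -/
def av {R : Type*} [CommRing R] (b : Fin 2 → Fin 3 → Fin 3 → ℤ) (i : Fin 2) (q : Fin 3 → R)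
    (k : Fin 3) : R :=
  ∑ j, (b i j k : R) * q j

/-- Exchange of the two planes. -/
def tb (b : Fin 2 → Fin 3 → Fin 3 → ℤ) (i : Fin 2) (j k : Fin 3) : ℤ := b i k j

/-- Cross product. -/
def cr {R : Type*} [CommRing R] (x y : Fin 3 → R) : Fin 3 → R :=
  ![x 1 * y 2 - x 2 * y 1, x 2 * y 0 - x 0 * y 2, x 0 * y 1 - x 1 * y 0]

/-- Dot product. -/
def dp {R : Type*} [CommRing R] (x y : Fin 3 → R) : R := ∑ k, x k * y k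

/-- The open set. -/
def InU {R : Type*} [CommRing R] (b : Fin 2 → Fin 3 → Fin 3 → ℤ) (p : Fin 2 → R)
    (q r : Fin 3 → R) : Prop :=
  (Matrix.of (mp b p)).det ≠ 0 ∧ cr (av b 0 q) (av b 1 q) ≠ 0 ∧
    cr (av (tb b) 0 r) (av (tb b) 1 r) ≠ 0 ∧ (dp (av b 0 q) r ≠ 0 ∨ dp (av b 1 q) r ≠ 0)

/-- Primitive integer vectors of length two. -/
def Prim2 (v : Fin 2 → ℤ) : Prop := IsCoprime (v 0) (v 1)

/-- Sup norm. -/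
def nm2 (v : Fin 2 → ℤ) : ℤ := max |v 0| |v 1|

/-- All matrices have rank at least two. -/
def Rk2 (b : Fin 2 → Fin 3 → Fin 3 → ℤ) : Prop :=
  ∀ p : Fin 2 → ℂ, p ≠ 0 → ∃ k k' j j', mnr (mp b p) k k' j j' ≠ 0

/-- QP-RK. -/
def S_RK : Prop := ∀ b : Fin 2 → Fin 3 → Fin 3 → ℤ, Smooth b → Rk2 b

/-- QP-CMP. -/
def S_CMP : Prop := ∀ b : Fin 2 → Fin 3 → Fin 3 → ℤ, Rk2 b → ∃ c : ℝ, 0 < c ∧
  ∀ p : Fin 2 → ℤ, ∃ k k' j j', c * (nm2 p : ℝ) ^ 2 ≤ |((mnr (mp b p) k k' j j' : ℤ) : ℝ)|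

/-- QP-NUL. -/
def S_NUL : Prop := ∀ b : Fin 2 → Fin 3 → Fin 3 → ℤ, Rk2 b → ∃ K : ℕ, 1 ≤ K ∧
  ∀ p : Fin 2 → ℤ, Prim2 p → ∀ g z : ℤ, (∀ k k' j j', g ∣ mnr (mp b p) k k' j j' * z) →
    g ∣ (K : ℤ) * z

/-- QP-CON. -/
def S_CON : Prop := ∀ b : Fin 2 → Fin 3 → Fin 3 → ℤ, Smooth b → ∃ K : ℕ, 1 ≤ K ∧
  ∀ q : Fin 3 → ℤ, Prim q → ∀ d : ℤ, (∀ i k, d ∣ av b i q k) → d ∣ (K : ℤ)

/-- QP-DET. -/
def S_DET : Prop := ∀ b : Fin 2 → Fin 3 → Fin 3 → ℤ, Smooth b →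
  ∃ p : Fin 2 → ℂ, (Matrix.of (mp b p)).det ≠ 0

/-- QP-PT. -/
def S_PT : Prop := ∀ b : Fin 2 → Fin 3 → Fin 3 → ℤ, Rk2 b →
  (∃ p : Fin 2 → ℂ, (Matrix.of (mp b p)).det ≠ 0) →
  ∃ (p : Fin 2 → ℂ) (q r : Fin 3 → ℂ), p ≠ 0 ∧ q ≠ 0 ∧ r ≠ 0 ∧ fv b p q r = 0 ∧ InU b p q r

/-- QP-CLS: the number of residue classes modulo `g` with `x·r = y·r = 0`. -/
def S_CLS : Prop := ∀ (K : ℕ) (x y : Fin 3 → ℤ) (g : ℕ), 1 ≤ g → 1 ≤ K → cr x y ≠ 0 →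
  (∀ d : ℤ, (∀ k, d ∣ x k) → (∀ k, d ∣ y k) → d ∣ (K : ℤ)) →
  Nat.card {r : Fin 3 → ZMod g // ∑ k, (x k : ZMod g) * r k = 0 ∧ ∑ k, (y k : ZMod g) * r k = 0}
    ≤ K * g * Nat.gcd g (ct (cr x y))

/-- QP-CEL: vectors of one residue class modulo `g` in a box, with bounded `x·r` and `y·r`. -/
def S_CEL : Prop := ∃ C : ℝ, 0 < C ∧ ∀ (x y : Fin 3 → ℤ) (g Z Y : ℕ), 1 ≤ g → g ≤ Z →
  cr x y ≠ 0 → (∀ k, g * |x k| ≤ Y) → (∀ k, g * |y k| ≤ Y) →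
  ∀ S : Finset (Fin 3 → ℤ), (∀ r ∈ S, nm r ≤ Z ∧ |dp x r| ≤ Y ∧ |dp y r| ≤ Y) →
  (∀ r ∈ S, ∀ r' ∈ S, ∀ k, (g : ℤ) ∣ r k - r' k) →
  (S.card : ℝ) ≤ C * (Z : ℝ) * (Y : ℝ) ^ 2 / ((g : ℝ) ^ 3 * nm (cr x y))

open Classical in
/-- QP-INV: the sum of the inverses of the norms of the cross products. -/
def S_INV : Prop := ∀ b : Fin 2 → Fin 3 → Fin 3 → ℤ, Smooth b → ∃ C : ℝ, 0 < C ∧ ∀ X : ℕ, 1 ≤ X →
  ∑ q ∈ (bx X).filter (fun q => (X : ℤ) ≤ 2 * nm q ∧ cr (av b 0 q) (av b 1 q) ≠ 0),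
    (1 / (nm (cr (av b 0 q) (av b 1 q)) : ℝ)) ≤ C * X

/-- QP-ROOT: the determinant has three distinct roots. -/
def S_ROOT : Prop := ∀ b : Fin 2 → Fin 3 → Fin 3 → ℤ, Smooth b →
  ∃ P : Fin 3 → Fin 2 → ℂ, (∀ i, (Matrix.of (mp b (P i))).det = 0) ∧
    ∀ i j, i ≠ j → P i 0 * P j 1 - P i 1 * P j 0 ≠ 0

/-- QP-IVA: the cross product in terms of the coordinates with respect to the kernel vectors. -/
def S_IVA : Prop := ∀ b : Fin 2 → Fin 3 → Fin 3 → ℤ,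
  (∃ p : Fin 2 → ℂ, (Matrix.of (mp b p)).det ≠ 0) →
  (∃ P : Fin 3 → Fin 2 → ℂ, (∀ i, (Matrix.of (mp b (P i))).det = 0) ∧
    ∀ i j, i ≠ j → P i 0 * P j 1 - P i 1 * P j 0 ≠ 0) →
  ∃ (c : ℝ) (Y : Fin 3 → Fin 3 → ℂ), 0 < c ∧ (Matrix.of Y).det ≠ 0 ∧
    ∀ q : Fin 3 → ℤ, ∀ i j, i ≠ j →
      c * (‖∑ k, Y i k * (q k : ℂ)‖ * ‖∑ k, Y j k * (q k : ℂ)‖) ≤
        (nm (cr (av b 0 q) (av b 1 q)) : ℝ)

open Classical in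
/-- QP-IVB: the analytic part of QP-INV. -/
def S_IVB : Prop := ∀ (c : ℝ) (Y : Fin 3 → Fin 3 → ℂ), 0 < c → (Matrix.of Y).det ≠ 0 →
  ∀ N : (Fin 3 → ℤ) → ℤ, (∀ q : Fin 3 → ℤ, ∀ i j, i ≠ j →
      c * (‖∑ k, Y i k * (q k : ℂ)‖ * ‖∑ k, Y j k * (q k : ℂ)‖) ≤ (N q : ℝ)) →
  ∃ C : ℝ, 0 < C ∧ ∀ X : ℕ, 1 ≤ X →
    ∑ q ∈ (bx X).filter (fun q => (X : ℤ) ≤ 2 * nm q ∧ N q ≠ 0), (1 / (N q : ℝ)) ≤ C * X

end Pool.Agent.W978.QP
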