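import Mathlib
import Pool.Agent.W978.QM.Bas
import Pool.Agent.W978.QN.Core
import Pool.Agent.W978.QP.Stm

/-! Elementary facts (a projective line and two projective planes). -/

namespace Pool.Agent.W978.QP

open Finset
open Pool.Agent.W978.QN (nm bx ct cp mnr wv Prim dm mem_bx card_bx_le le_nm nm_le nm_pos
  nm_pos_of_ne prim_ne_zero prim_dvd ct_dvd ct_le_nm abs_sum3)

/-- A bound for the coefficients. -/
def mxb (b : Fin 2 → Fin 3 → Fin 3 → ℤ) : ℕ := 1 + ∑ i, ∑ j, ∑ k, (b i j k).natAbs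

theorem one_le_mxb (b : Fin 2 → Fin 3 → Fin 3 → ℤ) : 1 ≤ mxb b := by unfold mxb; omega

theorem le_mxb (b : Fin 2 → Fin 3 → Fin 3 → ℤ) (i : Fin 2) (j k : Fin 3) :
    |b i j k| ≤ (mxb b : ℤ) := by
  have h1 : (b i j k).natAbs ≤ ∑ k, (b i j k).natAbs :=
    Finset.single_le_sum (f := fun k => (b i j k).natAbs) (fun _ _ => Nat.zero_le _)
      (mem_univ k)
  have h2 : ∑ k, (b i j k).natAbs ≤ ∑ j, ∑ k, (b i j k).natAbs :=
    Finset.single_le_sum (f := fun j => ∑ k, (b i j k).natAbs) (fun _ _ => Nat.zero_le _)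
      (mem_univ j)
  have h3 : ∑ j, ∑ k, (b i j k).natAbs ≤ ∑ i, ∑ j, ∑ k, (b i j k).natAbs :=
    Finset.single_le_sum (f := fun i => ∑ j, ∑ k, (b i j k).natAbs) (fun _ _ => Nat.zero_le _)
      (mem_univ i)
  have h5 : (b i j k).natAbs ≤ mxb b := by unfold mxb; omega
  rw [Int.abs_eq_natAbs]
  exact_mod_cast h5

theorem le_nm2 (v : Fin 2 → ℤ) (i : Fin 2) : |v i| ≤ nm2 v := by
  unfold nm2
  fin_cases i
  · exact le_max_left _ _
  · exact le_max_right _ _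

theorem mem_bx2 {X : ℕ} {v : Fin 2 → ℤ} : v ∈ Pool.Agent.W978.QM.bx X ↔ nm2 v ≤ X :=
  Pool.Agent.W978.QM.mem_bx

theorem nm2_pos {v : Fin 2 → ℤ} (h : Prim2 v) : 1 ≤ nm2 v := Pool.Agent.W978.QM.nm_pos h

theorem mp_le (b : Fin 2 → Fin 3 → Fin 3 → ℤ) {p : Fin 2 → ℤ} {X : ℕ}
    (hp : nm2 p ≤ X) (k j : Fin 3) : |mp b p k j| ≤ 2 * mxb b * X := by
  unfold mp
  rw [Fin.sum_univ_two]
  simp only [Int.cast_id]
  have h0 := le_mxb b 0 j k
  have h1 := le_mxb b 1 j k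
  have p0 : |p 0| ≤ X := (le_nm2 p 0).trans hp
  have p1 : |p 1| ≤ X := (le_nm2 p 1).trans hp
  calc |b 0 j k * p 0 + b 1 j k * p 1| ≤ |b 0 j k * p 0| + |b 1 j k * p 1| := abs_add_le _ _
    _ = |b 0 j k| * |p 0| + |b 1 j k| * |p 1| := by rw [abs_mul, abs_mul]
    _ ≤ mxb b * X + mxb b * X := by gcongr
    _ = 2 * mxb b * X := by ring

theorem wv_le (b : Fin 2 → Fin 3 → Fin 3 → ℤ) {p : Fin 2 → ℤ} {q : Fin 3 → ℤ} {X Y : ℕ}
    (hp : nm2 p ≤ X) (hq : nm q ≤ Y) (k : Fin 3) : |wv (mp b p) q k| ≤ 6 * mxb b * X * Y := by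
  unfold wv
  have : (6 * mxb b * X * Y : ℤ) = 3 * ((2 * mxb b * X) * Y) := by ring
  rw [this]
  apply abs_sum3
  intro j
  rw [abs_mul]
  have h1 := mp_le b hp k j
  have h2 : |q j| ≤ Y := (le_nm q j).trans hq
  gcongr

theorem av_le (b : Fin 2 → Fin 3 → Fin 3 → ℤ) {q : Fin 3 → ℤ} {Y : ℕ}
    (hq : nm q ≤ Y) (i : Fin 2) (k : Fin 3) : |av b i q k| ≤ 3 * mxb b * Y := by
  unfold av
  have : (3 * mxb b * Y : ℤ) = 3 * (mxb b * Y) := by ring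
  rw [this]
  apply abs_sum3
  intro j
  simp only [Int.cast_id]
  rw [abs_mul]
  have h1 := le_mxb b i j k
  have h2 : |q j| ≤ Y := (le_nm q j).trans hq
  gcongr

theorem dp_le {x r : Fin 3 → ℤ} {U V : ℤ} (hU : 0 ≤ U) (hx : ∀ k, |x k| ≤ U)
    (hr : ∀ k, |r k| ≤ V) : |dp x r| ≤ 3 * (U * V) := by
  unfold dp
  apply abs_sum3
  intro k
  rw [abs_mul]
  have := hx k
  have := hr k
  gcongr

theorem cr_le {x y : Fin 3 → ℤ} {U : ℤ} (hU : 0 ≤ U) (hx : ∀ k, |x k| ≤ U)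
    (hy : ∀ k, |y k| ≤ U) : nm (cr x y) ≤ 2 * U ^ 2 := by
  apply nm_le
  have h : ∀ i j i' j', |x i * y j - x i' * y j'| ≤ 2 * U ^ 2 := by
    intro i j i' j'
    calc |x i * y j - x i' * y j'| ≤ |x i * y j| + |x i' * y j'| := abs_sub _ _
      _ = |x i| * |y j| + |x i'| * |y j'| := by rw [abs_mul, abs_mul]
      _ ≤ U * U + U * U := by
          gcongr
          · exact hx i
          · exact hy j
          · exact hx i'
          · exact hy j'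
      _ = 2 * U ^ 2 := by ring
  intro i
  fin_cases i
  · exact h 1 2 2 1
  · exact h 2 0 0 2
  · exact h 0 1 1 0

/-- The linear form in the third argument. -/
theorem wv_av (b : Fin 2 → Fin 3 → Fin 3 → ℤ) (p : Fin 2 → ℤ) (q : Fin 3 → ℤ) (k : Fin 3) :
    wv (mp b p) q k = p 0 * av b 0 q k + p 1 * av b 1 q k := by
  unfold wv mp av
  simp only [Fin.sum_univ_three, Fin.sum_univ_two, Int.cast_id]
  ring

theorem fv_wv (b : Fin 2 → Fin 3 → Fin 3 → ℤ) (p : Fin 2 → ℤ) (q r : Fin 3 → ℤ) :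
    fv b p q r = ∑ k, wv (mp b p) q k * r k := by
  unfold fv wv mp
  simp only [Fin.sum_univ_three, Fin.sum_univ_two, Int.cast_id]
  ring

theorem fv_dp (b : Fin 2 → Fin 3 → Fin 3 → ℤ) (p : Fin 2 → ℤ) (q r : Fin 3 → ℤ) :
    fv b p q r = p 0 * dp (av b 0 q) r + p 1 * dp (av b 1 q) r := by
  unfold fv dp av
  simp only [Fin.sum_univ_three, Fin.sum_univ_two, Int.cast_id]
  ring

theorem fv_tb {R : Type*} [CommRing R] (b : Fin 2 → Fin 3 → Fin 3 → ℤ) (p : Fin 2 → R)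
    (q r : Fin 3 → R) : fv (tb b) p q r = fv b p r q := by
  unfold fv tb
  simp only [Fin.sum_univ_three, Fin.sum_univ_two]
  ring

theorem dp_tb (b : Fin 2 → Fin 3 → Fin 3 → ℤ) (i : Fin 2) (q r : Fin 3 → ℤ) :
    dp (av (tb b) i q) r = dp (av b i r) q := by
  unfold dp av tb
  simp only [Fin.sum_univ_three]
  ring

theorem tb_tb (b : Fin 2 → Fin 3 → Fin 3 → ℤ) : tb (tb b) = b := rfl

theorem smooth_tb {b : Fin 2 → Fin 3 → Fin 3 → ℤ} (hb : Smooth b) : Smooth (tb b) := by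
  intro p q r hp hq hr h
  rw [fv_tb] at h
  rcases hb p r q hp hr hq h with ⟨v, hv⟩ | ⟨v, hv⟩ | ⟨v, hv⟩
  · exact Or.inl ⟨v, by rwa [fv_tb]⟩
  · exact Or.inr (Or.inr ⟨v, by rwa [fv_tb]⟩)
  · exact Or.inr (Or.inl ⟨v, by rwa [fv_tb]⟩)

theorem dm_tb (b : Fin 2 → Fin 3 → Fin 3 → ℤ) (p : Fin 2 → ℤ) :
    dm (mp (tb b) p) = dm (mp b p) := by
  rw [Pool.Agent.W978.QN.dm_eq, Pool.Agent.W978.QN.dm_eq]
  unfold mp tb
  ring

theorem inU_tb {b : Fin 2 → Fin 3 → Fin 3 → ℤ} {p : Fin 2 → ℤ} {q r : Fin 3 → ℤ}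
    (h : InU b p q r) : InU (tb b) p r q := by
  obtain ⟨h1, h2, h3, h4⟩ := h
  refine ⟨?_, h3, ?_, ?_⟩
  · have := dm_tb b p
    unfold dm at this
    rwa [this]
  · rw [tb_tb]; exact h2
  · rw [dp_tb, dp_tb]; exact h4

end Pool.Agent.W978.QP
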