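import Mathlib
import Pool.Agent.W978.QP.C1

/-! The count in a dyadic box, second regime. -/

namespace Pool.Agent.W978.QP

open Finset
open Pool.Agent.W978.QN (nm bx ct cp mnr wv Prim dm mem_bx card_bx_le le_nm nm_le nm_pos
  nm_pos_of_ne prim_ne_zero prim_dvd ct_dvd ct_le_nm abs_sum3)

open Classical in
/-- Vectors of a box with both products divisible by `g` and bounded. -/
theorem card_g (hCLS : S_CLS) (CE : ℝ) (hCE0 : 0 < CE)
    (hCEL : ∀ (x y : Fin 3 → ℤ) (g Z Y : ℕ), 1 ≤ g → g ≤ Z →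
      cr x y ≠ 0 → (∀ k, g * |x k| ≤ Y) → (∀ k, g * |y k| ≤ Y) →
      ∀ S : Finset (Fin 3 → ℤ), (∀ r ∈ S, nm r ≤ Z ∧ |dp x r| ≤ Y ∧ |dp y r| ≤ Y) →
      (∀ r ∈ S, ∀ r' ∈ S, ∀ k, (g : ℤ) ∣ r k - r' k) →
      (S.card : ℝ) ≤ CE * (Z : ℝ) * (Y : ℝ) ^ 2 / ((g : ℝ) ^ 3 * nm (cr x y)))
    (K : ℕ) (hK : 1 ≤ K) (x y : Fin 3 → ℤ) (hxy : cr x y ≠ 0)
    (hcon : ∀ d : ℤ, (∀ k, d ∣ x k) → (∀ k, d ∣ y k) → d ∣ (K : ℤ))
    (g Z Y : ℕ) (hg : 1 ≤ g) (hgZ : g ≤ Z) (hx : ∀ k, g * |x k| ≤ Y) (hy : ∀ k, g * |y k| ≤ Y)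
    (S : Finset (Fin 3 → ℤ)) (hS : ∀ r ∈ S, nm r ≤ Z ∧ |dp x r| ≤ Y ∧ |dp y r| ≤ Y ∧
      (g : ℤ) ∣ dp x r ∧ (g : ℤ) ∣ dp y r) :
    (S.card : ℝ) ≤ ((K * g * Nat.gcd g (ct (cr x y)) : ℕ) : ℝ) *
      (CE * (Z : ℝ) * (Y : ℝ) ^ 2 / ((g : ℝ) ^ 3 * nm (cr x y))) := by
  have hne : NeZero g := ⟨by omega⟩
  have hD : (0 : ℝ) < (nm (cr x y) : ℝ) := by
    have := nm_pos_of_ne hxy
    exact_mod_cast (show (0 : ℤ) < nm (cr x y) by omega)
  set f : (Fin 3 → ℤ) → (Fin 3 → ZMod g) := fun r k => (r k : ZMod g) with hf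
  set T : Finset (Fin 3 → ZMod g) := univ.filter fun r =>
    ∑ k, (x k : ZMod g) * r k = 0 ∧ ∑ k, (y k : ZMod g) * r k = 0 with hT
  have hTcard : T.card ≤ K * g * Nat.gcd g (ct (cr x y)) := by
    have h1 := hCLS K x y g hg hK hxy hcon
    rw [Nat.card_eq_fintype_card, Fintype.card_subtype] at h1
    exact h1
  have himg : ∀ r ∈ S, f r ∈ T := by
    intro r hr
    obtain ⟨-, -, -, h4, h5⟩ := hS r hr
    rw [hT, mem_filter]
    refine ⟨mem_univ _, ?_, ?_⟩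
    · have := (ZMod.intCast_zmod_eq_zero_iff_dvd (dp x r) g).2 h4
      rw [← this, hf]
      unfold dp
      push_cast
      rfl
    · have := (ZMod.intCast_zmod_eq_zero_iff_dvd (dp y r) g).2 h5
      rw [← this, hf]
      unfold dp
      push_cast
      rfl
  have hcard : (S.card : ℝ) = ∑ z ∈ T, ((S.filter (fun r => f r = z)).card : ℝ) := by
    rw [Finset.card_eq_sum_card_fiberwise himg]
    push_cast
    rfl
  rw [hcard]
  have hB0 : 0 ≤ CE * (Z : ℝ) * (Y : ℝ) ^ 2 / ((g : ℝ) ^ 3 * nm (cr x y)) := by positivity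
  calc ∑ z ∈ T, ((S.filter (fun r => f r = z)).card : ℝ)
      ≤ ∑ z ∈ T, CE * (Z : ℝ) * (Y : ℝ) ^ 2 / ((g : ℝ) ^ 3 * nm (cr x y)) := by
        refine Finset.sum_le_sum fun z _ => ?_
        apply hCEL x y g Z Y hg hgZ hxy hx hy
        · intro r hr
          obtain ⟨h1, h2, h3, -, -⟩ := hS r (mem_filter.1 hr).1
          exact ⟨h1, h2, h3⟩
        · intro r hr r' hr' k
          have h1 : f r' = f r := (mem_filter.1 hr').2.trans (mem_filter.1 hr).2.symm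
          have h2 := congrFun h1 k
          exact (ZMod.intCast_eq_intCast_iff_dvd_sub _ _ g).1 h2
    _ = (T.card : ℝ) * (CE * (Z : ℝ) * (Y : ℝ) ^ 2 / ((g : ℝ) ^ 3 * nm (cr x y))) := by
        rw [Finset.sum_const, nsmul_eq_mul]
    _ ≤ _ := by
        apply mul_le_mul_of_nonneg_right _ hB0
        exact_mod_cast hTcard

/-- The sum of greatest common divisors. -/
theorem sum_gcd (e G : ℕ) (he : 1 ≤ e) :
    ∑ g ∈ Ioc 0 G, Nat.gcd g e ≤ e.divisors.card * G := by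
  have h1 : ∀ g ∈ Ioc 0 G, Nat.gcd g e ≤ ∑ d ∈ e.divisors, if d ∣ g then d else 0 := by
    intro g hg
    have h2 : Nat.gcd g e ∈ e.divisors := by
      rw [Nat.mem_divisors]
      exact ⟨Nat.gcd_dvd_right _ _, by omega⟩
    have h3 := Finset.single_le_sum (f := fun d => if d ∣ g then d else 0)
      (fun _ _ => Nat.zero_le _) h2
    refine le_trans (le_of_eq ?_) h3
    exact (if_pos (Nat.gcd_dvd_left g e)).symm
  calc ∑ g ∈ Ioc 0 G, Nat.gcd g e ≤ ∑ g ∈ Ioc 0 G, ∑ d ∈ e.divisors, (if d ∣ g then d else 0) :=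
        Finset.sum_le_sum h1
    _ = ∑ d ∈ e.divisors, ∑ g ∈ Ioc 0 G, (if d ∣ g then d else 0) := Finset.sum_comm
    _ ≤ ∑ d ∈ e.divisors, G := by
        refine Finset.sum_le_sum fun d _ => ?_
        rw [← Finset.sum_filter, Finset.sum_const, Nat.Ioc_filter_dvd_card_eq_div, smul_eq_mul]
        exact Nat.div_mul_le_self _ _
    _ = e.divisors.card * G := by rw [Finset.sum_const, smul_eq_mul]

open Classical in
/-- The number of pairs `(p, r)` for a fixed `q`. -/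
theorem card_pairs (hCLS : S_CLS) (CE : ℝ) (hCE0 : 0 < CE)
    (hCEL : ∀ (x y : Fin 3 → ℤ) (g Z Y : ℕ), 1 ≤ g → g ≤ Z →
      cr x y ≠ 0 → (∀ k, g * |x k| ≤ Y) → (∀ k, g * |y k| ≤ Y) →
      ∀ S : Finset (Fin 3 → ℤ), (∀ r ∈ S, nm r ≤ Z ∧ |dp x r| ≤ Y ∧ |dp y r| ≤ Y) →
      (∀ r ∈ S, ∀ r' ∈ S, ∀ k, (g : ℤ) ∣ r k - r' k) →
      (S.card : ℝ) ≤ CE * (Z : ℝ) * (Y : ℝ) ^ 2 / ((g : ℝ) ^ 3 * nm (cr x y)))
    (K : ℕ) (hK : 1 ≤ K) (x y : Fin 3 → ℤ) (hxy : cr x y ≠ 0)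
    (hcon : ∀ d : ℤ, (∀ k, d ∣ x k) → (∀ k, d ∣ y k) → d ∣ (K : ℤ))
    (B X₁ X₂ X₃ : ℕ) (hB : 1 ≤ B) (h1 : 1 ≤ X₁) (h21 : X₂ ≤ X₁) (h3 : 1 ≤ X₃)
    (hx : ∀ k, |x k| ≤ B * X₂) (hy : ∀ k, |y k| ≤ B * X₂)
    (Ω : Finset ((Fin 2 → ℤ) × (Fin 3 → ℤ)))
    (hΩ : ∀ w ∈ Ω, Prim2 w.1 ∧ nm2 w.1 ≤ X₁ ∧ (X₁ : ℤ) ≤ 2 * nm2 w.1 ∧ nm w.2 ≤ X₃ ∧
      w.1 0 * dp x w.2 + w.1 1 * dp y w.2 = 0 ∧ (dp x w.2 ≠ 0 ∨ dp y w.2 ≠ 0)) :
    (Ω.card : ℝ) ≤ 72 * K * CE * (B : ℝ) ^ 4 * ((X₁ : ℝ) * X₂ * (X₃ : ℝ) ^ 2) *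
      (((ct (cr x y)).divisors.card : ℕ) : ℝ) * (1 / (nm (cr x y) : ℝ)) := by
  have hD : (0 : ℝ) < (nm (cr x y) : ℝ) := by
    have := nm_pos_of_ne hxy
    exact_mod_cast (show (0 : ℤ) < nm (cr x y) by omega)
  set D : ℝ := (nm (cr x y) : ℝ) with hDdef
  set e := ct (cr x y) with he
  have he1 : 1 ≤ e := (ct_le_nm hxy).1
  set G : ℕ := 6 * B * X₂ * X₃ / X₁ with hG
  set I : Finset (ℕ × ℤ) := (Ioc 0 G) ×ˢ ({1, -1} : Finset ℤ) with hI
  set Ωs : ℕ × ℤ → Finset ((Fin 2 → ℤ) × (Fin 3 → ℤ)) := fun t => Ω.filter fun w =>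
    dp x w.2 = -(t.2 * t.1 * w.1 1) ∧ dp y w.2 = t.2 * t.1 * w.1 0 with hΩs
  have hcover : Ω ⊆ I.biUnion Ωs := by
    intro w hw
    obtain ⟨hp, hpX, hpX', hr, heq, hne⟩ := hΩ w hw
    obtain ⟨a, b', hab⟩ := hp
    set u := dp x w.2 with hu
    set v := dp y w.2 with hv
    set t := a * v - b' * u with ht
    have hv' : v = t * w.1 0 := by
      rw [ht]; linear_combination (-v) * hab + b' * heq
    have hu' : u = -(t * w.1 1) := by
      rw [ht]; linear_combination (-u) * hab + a * heq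
    have ht0 : t ≠ 0 := by
      intro h0
      rw [h0] at hv' hu'
      rcases hne with h | h
      · apply h; rw [hu']; ring
      · apply h; rw [hv']; ring
    have hxB : ∀ k, |x k| ≤ ((B * X₂ : ℕ) : ℤ) := fun k => by push_cast; exact hx k
    have hyB : ∀ k, |y k| ≤ ((B * X₂ : ℕ) : ℤ) := fun k => by push_cast; exact hy k
    have hrX : ∀ k, |w.2 k| ≤ (X₃ : ℤ) := fun k => (le_nm _ k).trans hr
    have hu3 : |u| ≤ 3 * (((B * X₂ : ℕ) : ℤ) * X₃) := dp_le (by positivity) hxB hrX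
    have hv3 : |v| ≤ 3 * (((B * X₂ : ℕ) : ℤ) * X₃) := dp_le (by positivity) hyB hrX
    have hnm : |t| * nm2 w.1 ≤ 3 * (((B * X₂ : ℕ) : ℤ) * X₃) := by
      rw [hv', abs_mul] at hv3
      rw [hu', abs_neg, abs_mul] at hu3
      unfold nm2
      rcases max_choice |w.1 0| |w.1 1| with h | h
      · rw [h]; exact hv3
      · rw [h]; exact hu3
    have htG : t.natAbs ≤ G := by
      rw [hG, Nat.le_div_iff_mul_le (by omega)]
      have h5 : |t| * X₁ ≤ 6 * B * X₂ * X₃ := by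
        calc |t| * X₁ ≤ |t| * (2 * nm2 w.1) := by gcongr
          _ = 2 * (|t| * nm2 w.1) := by ring
          _ ≤ 2 * (3 * (((B * X₂ : ℕ) : ℤ) * X₃)) := by gcongr
          _ = 6 * B * X₂ * X₃ := by push_cast; ring
      rw [Int.abs_eq_natAbs] at h5
      exact_mod_cast h5
    rw [mem_biUnion]
    refine ⟨(t.natAbs, t.sign), ?_, ?_⟩
    · rw [hI, mem_product, mem_Ioc]
      refine ⟨⟨Int.natAbs_pos.2 ht0, htG⟩, ?_⟩
      rcases Int.lt_or_gt_of_ne ht0 with h | h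
      · rw [Int.sign_eq_neg_one_of_neg h]; simp
      · rw [Int.sign_eq_one_of_pos h]; simp
    · rw [hΩs, mem_filter]
      refine ⟨hw, ?_, ?_⟩
      · change u = -(t.sign * (t.natAbs : ℤ) * w.1 1)
        rw [Int.sign_mul_natAbs]
        exact hu'
      · change v = t.sign * (t.natAbs : ℤ) * w.1 0
        rw [Int.sign_mul_natAbs]
        exact hv'
  have hX1r : (0 : ℝ) < X₁ := by exact_mod_cast h1
  have hterm : ∀ t ∈ I, ((Ωs t).card : ℝ) ≤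
      (6 * K * CE * (B : ℝ) ^ 3 * (X₃ : ℝ) * (X₁ : ℝ) ^ 2 / D) * ((Nat.gcd t.1 e : ℕ) : ℝ) := by
    rintro ⟨g, s⟩ ht
    rw [hI, mem_product, mem_Ioc] at ht
    obtain ⟨⟨hg0, hgG⟩, hs⟩ := ht
    simp only at hg0 hgG hs ⊢
    have hg1 : 1 ≤ g := hg0
    have hgr : (0 : ℝ) < g := by exact_mod_cast hg0
    have hs' : s = 1 ∨ s = -1 := by simpa using hs
    have habs : |s| = 1 := by rcases hs' with h | h <;> rw [h] <;> simp
    have hs0 : s ≠ 0 := by rcases hs' with h | h <;> rw [h] <;> simp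
    have hg0' : (g : ℤ) ≠ 0 := by exact_mod_cast hg0.ne'
    have hinj : Set.InjOn (fun w : (Fin 2 → ℤ) × (Fin 3 → ℤ) => w.2) (Ωs (g, s) : Set _) := by
      intro w hw w' hw' hww
      rw [mem_coe, hΩs, mem_filter] at hw hw'
      simp only at hww
      obtain ⟨-, e1, e2⟩ := hw
      obtain ⟨-, e3, e4⟩ := hw'
      simp only at e1 e2 e3 e4
      rw [← hww] at e3 e4
      have e5 : w.1 1 = w'.1 1 := by
        have : s * g * w.1 1 = s * g * w'.1 1 := by linarith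
        exact mul_left_cancel₀ (mul_ne_zero hs0 hg0') this
      have e6 : w.1 0 = w'.1 0 := by
        have : s * g * w.1 0 = s * g * w'.1 0 := by linarith
        exact mul_left_cancel₀ (mul_ne_zero hs0 hg0') this
      apply Prod.ext _ hww
      funext i
      fin_cases i
      · exact e6
      · exact e5
    have hcardimg : ((Ωs (g, s)).image (fun w => w.2)).card = (Ωs (g, s)).card :=
      Finset.card_image_of_injOn hinj
    have hGZ : g ≤ 6 * B * X₃ := by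
      refine hgG.trans ?_
      rw [hG]
      apply Nat.div_le_of_le_mul
      calc 6 * B * X₂ * X₃ ≤ 6 * B * X₁ * X₃ := by gcongr
        _ = X₁ * (6 * B * X₃) := by ring
    have hBX : ∀ z : ℤ, |z| ≤ B * X₂ → (g : ℤ) * |z| ≤ ((g * B * X₁ : ℕ) : ℤ) := by
      intro z hz
      calc (g : ℤ) * |z| ≤ g * (B * X₂) := by gcongr
        _ ≤ g * (B * X₁) := by gcongr
        _ = ((g * B * X₁ : ℕ) : ℤ) := by push_cast; ring
    have h5 := card_g hCLS CE hCE0 hCEL K hK x y hxy hcon g (6 * B * X₃) (g * B * X₁) hg1 hGZ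
      (fun k => hBX _ (hx k)) (fun k => hBX _ (hy k)) ((Ωs (g, s)).image (fun w => w.2)) (by
        intro r hr
        rw [mem_image] at hr
        obtain ⟨w, hw, rfl⟩ := hr
        rw [hΩs, mem_filter] at hw
        obtain ⟨hwΩ, e1, e2⟩ := hw
        simp only at e1 e2
        obtain ⟨hp, hpX, hpX', hr, heq, hne⟩ := hΩ w hwΩ
        have hle : ∀ i, |s * g * w.1 i| ≤ ((g * B * X₁ : ℕ) : ℤ) := by
          intro i
          rw [abs_mul, abs_mul, habs, one_mul, Nat.abs_cast]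
          have e7 : |w.1 i| ≤ X₁ := (le_nm2 _ i).trans hpX
          have e8 : (1 : ℤ) ≤ B := by exact_mod_cast hB
          calc (g : ℤ) * |w.1 i| ≤ g * X₁ := by gcongr
            _ = g * 1 * X₁ := by ring
            _ ≤ g * B * X₁ := by gcongr
            _ = ((g * B * X₁ : ℕ) : ℤ) := by push_cast; ring
        refine ⟨?_, ?_, ?_, ?_, ?_⟩
        · refine hr.trans ?_
          have : X₃ ≤ 6 * B * X₃ := Nat.le_mul_of_pos_left _ (by omega)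
          exact_mod_cast this
        · rw [e1, abs_neg]; exact hle 1
        · rw [e2]; exact hle 0
        · rw [e1]
          exact (Dvd.dvd.mul_right (Dvd.intro_left s rfl) _).neg_right
        · rw [e2]
          exact Dvd.dvd.mul_right (Dvd.intro_left s rfl) _)
    rw [hcardimg] at h5
    refine h5.trans (le_of_eq ?_)
    push_cast
    rw [← hDdef, ← he]
    field_simp
  have hsum : (Ω.card : ℝ) ≤ ∑ t ∈ I, ((Ωs t).card : ℝ) := by
    have h5 : Ω.card ≤ ∑ t ∈ I, (Ωs t).card :=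
      (Finset.card_le_card hcover).trans Finset.card_biUnion_le
    exact_mod_cast h5
  refine hsum.trans ((Finset.sum_le_sum hterm).trans ?_)
  rw [← Finset.mul_sum, hI, Finset.sum_product]
  simp only [Finset.sum_const]
  have hcard2 : ({1, -1} : Finset ℤ).card = 2 := rfl
  rw [hcard2]
  have hgc : ∑ g ∈ Ioc 0 G, (2 • ((Nat.gcd g e : ℕ) : ℝ)) ≤
      2 * ((e.divisors.card : ℝ) * G) := by
    have h6 := sum_gcd e G he1
    have h7 : ∑ g ∈ Ioc 0 G, (2 • ((Nat.gcd g e : ℕ) : ℝ)) =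
        2 * ((∑ g ∈ Ioc 0 G, Nat.gcd g e : ℕ) : ℝ) := by
      push_cast
      rw [Finset.mul_sum]
      refine Finset.sum_congr rfl fun g _ => ?_
      rw [nsmul_eq_mul]
      push_cast
      ring
    rw [h7]
    have h8 : ((∑ g ∈ Ioc 0 G, Nat.gcd g e : ℕ) : ℝ) ≤ ((e.divisors.card * G : ℕ) : ℝ) := by
      exact_mod_cast h6
    push_cast at h8 ⊢
    linarith
  have hGr : (G : ℝ) ≤ 6 * B * X₂ * X₃ / X₁ := by
    rw [hG]
    refine (Nat.cast_div_le).trans (le_of_eq ?_)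
    push_cast
    ring
  calc (6 * K * CE * (B : ℝ) ^ 3 * (X₃ : ℝ) * (X₁ : ℝ) ^ 2 / D) *
        ∑ g ∈ Ioc 0 G, (2 • ((Nat.gcd g e : ℕ) : ℝ))
      ≤ (6 * K * CE * (B : ℝ) ^ 3 * (X₃ : ℝ) * (X₁ : ℝ) ^ 2 / D) *
        (2 * ((e.divisors.card : ℝ) * (6 * B * X₂ * X₃ / X₁))) := by
        apply mul_le_mul_of_nonneg_left _ (by positivity)
        refine hgc.trans ?_
        gcongr
    _ = _ := by
        field_simp
        ring

open Classical in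
/-- The count in a dyadic box, second regime. -/
theorem core2 (hCLS : S_CLS) (hCEL : S_CEL) (hCON : S_CON) (hINV : S_INV)
    (b : Fin 2 → Fin 3 → Fin 3 → ℤ) (hb : Smooth b)
    (ε : ℝ) (hε : 0 < ε) : ∃ C : ℝ, 0 < C ∧ ∀ X₁ X₂ X₃ : ℕ, 1 ≤ X₂ → X₂ ≤ X₁ → 1 ≤ X₃ →
      ((cs b X₁ X₂ X₃).card : ℝ) ≤
        C * ((X₁ : ℝ) * (X₂ : ℝ) ^ 2 * (X₃ : ℝ) ^ 2) * ((X₁ * X₂ * X₃ : ℕ) : ℝ) ^ ε := by
  obtain ⟨CE, hCE0, hCEL⟩ := hCEL
  obtain ⟨K, hK, hcon⟩ := hCON b hb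
  obtain ⟨CI, hCI, hinv⟩ := hINV b hb
  set B : ℕ := 3 * mxb b with hB
  have hm1 := one_le_mxb b
  have hB1 : 1 ≤ B := by omega
  have hc1 : 1 ≤ 2 * B ^ 2 := by
    have : 1 ≤ B ^ 2 := Nat.one_le_pow _ _ hB1
    omega
  obtain ⟨C, hC, hsm⟩ := Pool.Agent.W978.QM.small_bound (2 * B ^ 2) hc1 ε hε
  refine ⟨72 * K * CE * (B : ℝ) ^ 4 * C * CI, ?_, ?_⟩
  · have : (0 : ℝ) < K := by exact_mod_cast hK
    have : (0 : ℝ) < B := by exact_mod_cast hB1
    positivity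
  intro X₁ X₂ X₃ h2 h21 h3
  have h1 : 1 ≤ X₁ := h2.trans h21
  set P3 : ℕ := X₁ * X₂ * X₃ with hP3
  have hP31 : 1 ≤ P3 := by
    rw [hP3]
    exact Nat.one_le_iff_ne_zero.2 (by positivity)
  obtain ⟨hdiv, -⟩ := hsm P3 hP31
  set E : ℝ := C * (P3 : ℝ) ^ ε with hE
  have hP31' : (1 : ℝ) ≤ P3 := by exact_mod_cast hP31
  have hE0 : 0 ≤ E := by positivity
  have hX2P : X₂ ≤ P3 := by
    rw [hP3]
    calc X₂ = 1 * X₂ * 1 := by ring
      _ ≤ X₁ * X₂ * X₃ := by gcongr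
  set Q := (bx X₂).filter
    (fun q => (X₂ : ℤ) ≤ 2 * nm q ∧ cr (av b 0 q) (av b 1 q) ≠ 0) with hQ
  have hmaps : ∀ x ∈ cs b X₁ X₂ X₃, x.2.1 ∈ Q := by
    intro x hx
    unfold cs at hx
    rw [mem_filter, mem_product, mem_product] at hx
    rw [hQ, mem_filter]
    exact ⟨hx.1.2.1, hx.2.2.1.2.1, hx.2.2.1.2.2⟩
  have hcard : ((cs b X₁ X₂ X₃).card : ℝ) =
      ∑ q ∈ Q, (((cs b X₁ X₂ X₃).filter (fun x => x.2.1 = q)).card : ℝ) := by
    rw [Finset.card_eq_sum_card_fiberwise hmaps]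
    push_cast
    rfl
  rw [hcard]
  have hfib : ∀ q ∈ Q, (((cs b X₁ X₂ X₃).filter (fun x => x.2.1 = q)).card : ℝ) ≤
      (72 * K * CE * (B : ℝ) ^ 4 * ((X₁ : ℝ) * X₂ * (X₃ : ℝ) ^ 2) * E) *
        (1 / (nm (cr (av b 0 q) (av b 1 q)) : ℝ)) := by
    intro q hq
    rw [hQ, mem_filter] at hq
    obtain ⟨hqb, hqX, hcr⟩ := hq
    have hqn : nm q ≤ X₂ := mem_bx.1 hqb
    by_cases hprim : Prim q
    swap
    · have hempty : (cs b X₁ X₂ X₃).filter (fun x => x.2.1 = q) = ∅ := by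
        rw [Finset.filter_eq_empty_iff]
        intro x hx hxq
        unfold cs at hx
        rw [mem_filter] at hx
        apply hprim
        rw [← hxq]
        exact hx.2.2.1.1
      rw [hempty, Finset.card_empty]
      have hD : (0 : ℝ) < (nm (cr (av b 0 q) (av b 1 q)) : ℝ) := by
        have := nm_pos_of_ne hcr
        exact_mod_cast (show (0 : ℤ) < nm (cr (av b 0 q) (av b 1 q)) by omega)
      push_cast
      positivity
    have hD : (0 : ℝ) < (nm (cr (av b 0 q) (av b 1 q)) : ℝ) := by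
      have := nm_pos_of_ne hcr
      exact_mod_cast (show (0 : ℤ) < nm (cr (av b 0 q) (av b 1 q)) by omega)
    set Ω := ((cs b X₁ X₂ X₃).filter (fun x => x.2.1 = q)).image (fun x => (x.1, x.2.2)) with hΩ
    have hinj : Set.InjOn (fun x : (Fin 2 → ℤ) × (Fin 3 → ℤ) × (Fin 3 → ℤ) => (x.1, x.2.2))
        ((cs b X₁ X₂ X₃).filter (fun x => x.2.1 = q) : Set _) := by
      intro x hx x' hx' hxx
      rw [mem_coe, mem_filter] at hx hx'
      simp only [Prod.mk.injEq] at hxx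
      exact Prod.ext hxx.1 (Prod.ext (hx.2.trans hx'.2.symm) hxx.2)
    have hcardΩ : Ω.card = ((cs b X₁ X₂ X₃).filter (fun x => x.2.1 = q)).card :=
      Finset.card_image_of_injOn hinj
    have hav : ∀ i k, |av b i q k| ≤ (B : ℤ) * X₂ := by
      intro i k
      refine (av_le b hqn i k).trans (le_of_eq ?_)
      rw [hB]; push_cast; ring
    have h5 := card_pairs hCLS CE hCE0 hCEL K hK (av b 0 q) (av b 1 q) hcr
      (fun d hd0 hd1 => hcon q hprim d (fun i k => by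
        fin_cases i
        · exact hd0 k
        · exact hd1 k)) B X₁ X₂ X₃ hB1 h1 h21 h3 (hav 0) (hav 1) Ω (by
        intro w hw
        rw [hΩ, mem_image] at hw
        obtain ⟨x, hx, rfl⟩ := hw
        rw [mem_filter] at hx
        obtain ⟨hx, hxq⟩ := hx
        unfold cs at hx
        rw [mem_filter, mem_product, mem_product] at hx
        obtain ⟨⟨hb1, -, hb3⟩, ⟨hp1, hp2, hp3⟩, -, ⟨hr1, hr2, hr3⟩⟩ := hx
        simp only
        refine ⟨hp1, mem_bx2.1 hb1, hp3, mem_bx.1 hb3, ?_, ?_⟩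
        · rw [← fv_dp, fv_wv, ← hxq]; exact hr2
        · rw [← hxq]; exact hr3)
    rw [hcardΩ] at h5
    refine h5.trans ?_
    have hτ : (((ct (cr (av b 0 q) (av b 1 q))).divisors.card : ℕ) : ℝ) ≤ E := by
      obtain ⟨e1, e2⟩ := ct_le_nm hcr
      apply hdiv _ e1
      have e3 := cr_le (U := (B : ℤ) * X₂) (by positivity) (hav 0) (hav 1)
      have e4 : (ct (cr (av b 0 q) (av b 1 q)) : ℤ) ≤ ((2 * B ^ 2 * X₂ ^ 2 : ℕ) : ℤ) := by
        refine e2.trans (e3.trans (le_of_eq ?_))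
        push_cast; ring
      have e5 : ct (cr (av b 0 q) (av b 1 q)) ≤ 2 * B ^ 2 * X₂ ^ 2 := by exact_mod_cast e4
      refine e5.trans ?_
      gcongr
    gcongr
  refine (Finset.sum_le_sum hfib).trans ?_
  rw [← Finset.mul_sum]
  have h6 := hinv X₂ h2
  rw [← hQ] at h6
  calc (72 * K * CE * (B : ℝ) ^ 4 * ((X₁ : ℝ) * X₂ * (X₃ : ℝ) ^ 2) * E) *
        ∑ q ∈ Q, (1 / (nm (cr (av b 0 q) (av b 1 q)) : ℝ))
      ≤ (72 * K * CE * (B : ℝ) ^ 4 * ((X₁ : ℝ) * X₂ * (X₃ : ℝ) ^ 2) * E) * (CI * X₂) := by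
        gcongr
    _ = _ := by
        rw [hE]
        ring

end Pool.Agent.W978.QP
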