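import Mathlib
import Pool.Agent.W978.QP.C2
import Pool.Agent.W978.QN.Asm

/-! Assembly: all orderings of the heights, all line bundles (line and two planes). -/

namespace Pool.Agent.W978.QP

open Finset
open Pool.Agent.W978.QN (nm bx ct cp mnr wv Prim dm mem_bx card_bx_le le_nm nm_le nm_pos
  nm_pos_of_ne prim_ne_zero prim_dvd ct_dvd ct_le_nm abs_sum3 S_R S_CD S_QA S_QB dy dy_spec
  dy_mono Rep)

/-- The normalised primitive representative of a rational point of the projective line. -/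
def Rep2 (v : Fin 2 → ℤ) : Prop := Prim2 v ∧ (0 < v 0 ∨ (v 0 = 0 ∧ v 1 = 1))

/-- The dyadic exponent of a vector. -/
def dy2 (v : Fin 2 → ℤ) : ℕ := Nat.clog 2 (nm2 v).toNat

theorem dy2_spec {v : Fin 2 → ℤ} (hv : Prim2 v) :
    nm2 v ≤ ((2 ^ dy2 v : ℕ) : ℤ) ∧ ((2 ^ dy2 v : ℕ) : ℤ) ≤ 2 * nm2 v := by
  have h1 := nm2_pos hv
  unfold dy2
  constructor
  · have := Nat.le_pow_clog (b := 2) (by norm_num) (nm2 v).toNat
    omega
  · by_cases h2 : (nm2 v).toNat = 1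
    · rw [h2, Nat.clog_one_right]
      omega
    · have h3 : 1 < (nm2 v).toNat := by omega
      have h4 := Nat.pow_pred_clog_lt_self (b := 2) (by norm_num) h3
      have h5 : 0 < Nat.clog 2 (nm2 v).toNat := Nat.clog_pos (by norm_num) h3
      have h6 : 2 ^ Nat.clog 2 (nm2 v).toNat = 2 * 2 ^ (Nat.clog 2 (nm2 v).toNat).pred := by
        rw [← pow_succ']
        exact congrArg (fun n => 2 ^ n) (Nat.succ_pred_eq_of_pos h5).symm
      omega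

theorem nm_ne_zero_iff {v : Fin 3 → ℤ} : nm v ≠ 0 ↔ v ≠ 0 := by
  constructor
  · rintro h rfl
    apply h
    unfold nm
    simp
  · intro h
    have := nm_pos_of_ne h
    omega

/-- The sum of inverses from its parts. -/
theorem inv_of (hROOT : S_ROOT) (hDET : S_DET) (hIVA : S_IVA) (hIVB : S_IVB) : S_INV := by
  classical
  intro b hb
  obtain ⟨c, Y, hc, hY, h⟩ := hIVA b (hDET b hb) (hROOT b hb)
  obtain ⟨C, hC, h2⟩ := hIVB c Y hc hY (fun q => nm (cr (av b 0 q) (av b 1 q))) h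
  refine ⟨C, hC, fun X hX => ?_⟩
  refine le_trans (le_of_eq ?_) (h2 X hX)
  refine Finset.sum_congr ?_ fun _ _ => rfl
  ext q
  simp only [mem_filter, nm_ne_zero_iff]

/-- The count in a dyadic box. -/
theorem core (hR : S_R) (hCD : S_CD) (hQA : S_QA) (hQB : S_QB) (hCMP : S_CMP) (hNUL : S_NUL)
    (hRK : S_RK) (hCLS : S_CLS) (hCEL : S_CEL) (hCON : S_CON) (hINV : S_INV)
    (b : Fin 2 → Fin 3 → Fin 3 → ℤ) (hb : Smooth b)
    (ε : ℝ) (hε : 0 < ε) : ∃ C : ℝ, 0 < C ∧ ∀ X₁ X₂ X₃ : ℕ, 1 ≤ X₁ → 1 ≤ X₂ → X₂ ≤ X₃ →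
      ((cs b X₁ X₂ X₃).card : ℝ) ≤
        C * ((X₁ : ℝ) * (X₂ : ℝ) ^ 2 * (X₃ : ℝ) ^ 2) * ((X₁ * X₂ * X₃ : ℕ) : ℝ) ^ ε := by
  obtain ⟨C₁, hC₁, h₁⟩ := core1 hR hCD hQA hQB hCMP hNUL b (hRK b hb) ε hε
  obtain ⟨C₂, hC₂, h₂⟩ := core2 hCLS hCEL hCON hINV b hb ε hε
  refine ⟨C₁ + C₂, by positivity, ?_⟩
  intro X₁ X₂ X₃ h1 h2 h23
  have hG : 0 ≤ ((X₁ : ℝ) * (X₂ : ℝ) ^ 2 * (X₃ : ℝ) ^ 2) * ((X₁ * X₂ * X₃ : ℕ) : ℝ) ^ ε := by
    positivity
  rcases le_total X₁ X₂ with h | h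
  · refine (h₁ X₁ X₂ X₃ h1 h h23).trans ?_
    rw [mul_assoc C₁, mul_assoc (C₁ + C₂)]
    exact mul_le_mul_of_nonneg_right (by linarith) hG
  · refine (h₂ X₁ X₂ X₃ h2 h (h2.trans h23)).trans ?_
    rw [mul_assoc C₂, mul_assoc (C₁ + C₂)]
    exact mul_le_mul_of_nonneg_right (by linarith) hG

/-- The height on the line is bounded by those on the planes. -/
theorem ht_le (b : Fin 2 → Fin 3 → Fin 3 → ℤ) {p : Fin 2 → ℤ} {q r : Fin 3 → ℤ}
    (hp : Prim2 p) (hf : fv b p q r = 0) (hU : InU b p q r) :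
    nm2 p ≤ 9 * mxb b * (nm q * nm r) := by
  obtain ⟨a, b', hab⟩ := hp
  rw [fv_dp] at hf
  have hne := hU.2.2.2
  set u := dp (av b 0 q) r with hu
  set v := dp (av b 1 q) r with hv
  set t := a * v - b' * u with ht
  have hv' : v = t * p 0 := by
    rw [ht]; linear_combination (-v) * hab + b' * hf
  have hu' : u = -(t * p 1) := by
    rw [ht]; linear_combination (-u) * hab + a * hf
  have ht0 : t ≠ 0 := by
    intro h0
    rw [h0] at hv' hu'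
    rcases hne with h | h
    · apply h; rw [hu']; ring
    · apply h; rw [hv']; ring
  have hq0 : 0 ≤ nm q := le_trans (abs_nonneg _) (le_nm q 0)
  have hr0 : 0 ≤ nm r := le_trans (abs_nonneg _) (le_nm r 0)
  obtain ⟨Q, hQ⟩ := Int.eq_ofNat_of_zero_le hq0
  have hav : ∀ i k, |av b i q k| ≤ 3 * mxb b * Q := fun i k => av_le b hQ.le i k
  have hu3 : |u| ≤ 3 * ((3 * mxb b * Q) * nm r) := dp_le (by positivity) (hav 0) (le_nm r)
  have hv3 : |v| ≤ 3 * ((3 * mxb b * Q) * nm r) := dp_le (by positivity) (hav 1) (le_nm r)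
  have ht1 : 1 ≤ |t| := Int.one_le_abs ht0
  have hnm : |t| * nm2 p ≤ 3 * ((3 * mxb b * Q) * nm r) := by
    rw [hv', abs_mul] at hv3
    rw [hu', abs_neg, abs_mul] at hu3
    unfold nm2
    rcases max_choice |p 0| |p 1| with h | h
    · rw [h]; exact hv3
    · rw [h]; exact hu3
  have hn0 : 0 ≤ nm2 p := le_trans (abs_nonneg _) (le_nm2 p 0)
  calc nm2 p = 1 * nm2 p := (one_mul _).symm
    _ ≤ |t| * nm2 p := by gcongr
    _ ≤ 3 * ((3 * mxb b * Q) * nm r) := hnm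
    _ = 9 * mxb b * (nm q * nm r) := by rw [hQ]; ring

open Classical in
/-- The anticanonical count. -/
theorem anti (hR : S_R) (hCD : S_CD) (hQA : S_QA) (hQB : S_QB) (hCMP : S_CMP) (hNUL : S_NUL)
    (hRK : S_RK) (hCLS : S_CLS) (hCEL : S_CEL) (hCON : S_CON) (hINV : S_INV)
    (b : Fin 2 → Fin 3 → Fin 3 → ℤ) (hb : Smooth b) (ε : ℝ) (hε : 0 < ε) :
    ∃ C : ℝ, 0 < C ∧ ∀ B : ℕ, 1 ≤ B →
      ∃ S : Finset ((Fin 2 → ℤ) × (Fin 3 → ℤ) × (Fin 3 → ℤ)),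
      (∀ p q r, Prim2 p → Prim q → Prim r → fv b p q r = 0 → InU b p q r →
        nm2 p * nm q ^ 2 * nm r ^ 2 ≤ B → (p, q, r) ∈ S) ∧
      (S.card : ℝ) ≤ C * (B : ℝ) ^ (1 + ε) := by
  obtain ⟨Ca, hCa, ha⟩ := core hR hCD hQA hQB hCMP hNUL hRK hCLS hCEL hCON hINV b hb (ε / 2)
    (by positivity)
  obtain ⟨Cb, hCb, hb'⟩ := core hR hCD hQA hQB hCMP hNUL hRK hCLS hCEL hCON hINV (tb b)
    (smooth_tb hb) (ε / 2) (by positivity)
  obtain ⟨C₂, hC₂, hlog⟩ := Pool.Agent.W978.QM.log_bound (ε / 6) (by positivity)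
  refine ⟨(Ca + Cb) * C₂ ^ 3 * (32 : ℝ) ^ (1 + ε), by positivity, ?_⟩
  intro B hB1
  have hB1' : (1 : ℝ) ≤ B := by exact_mod_cast hB1
  set L := Nat.log 2 (32 * B) + 1 with hLdef
  -- the index set
  set I : Finset (Fin 3 → ℕ) := (Fintype.piFinset fun _ : Fin 3 => range L).filter
    (fun k => k 1 ≤ k 2 ∧ 2 ^ k 0 * (2 ^ k 1) ^ 2 * (2 ^ k 2) ^ 2 ≤ 32 * B) with hI
  -- membership of the exponents
  have hidx : ∀ (p : Fin 2 → ℤ) (q r : Fin 3 → ℤ), Prim2 p → Prim q → Prim r →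
      nm2 p * nm q ^ 2 * nm r ^ 2 ≤ B → nm q ≤ nm r → (![dy2 p, dy q, dy r] : Fin 3 → ℕ) ∈ I := by
    intro p q r hp hq hr hH hqr
    have hle : 2 ^ dy2 p * (2 ^ dy q) ^ 2 * (2 ^ dy r) ^ 2 ≤ 32 * B := by
      have h0 := (dy2_spec hp).2
      have h1 := (dy_spec hq).2
      have h2 := (dy_spec hr).2
      have n0 := nm2_pos hp
      have n1 := nm_pos hq
      have n2 := nm_pos hr
      have : ((2 ^ dy2 p : ℕ) : ℤ) * ((2 ^ dy q : ℕ) : ℤ) ^ 2 *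
          ((2 ^ dy r : ℕ) : ℤ) ^ 2 ≤ 32 * B := by
        calc ((2 ^ dy2 p : ℕ) : ℤ) * ((2 ^ dy q : ℕ) : ℤ) ^ 2 * ((2 ^ dy r : ℕ) : ℤ) ^ 2
            ≤ (2 * nm2 p) * (2 * nm q) ^ 2 * (2 * nm r) ^ 2 := by gcongr
          _ = 32 * (nm2 p * nm q ^ 2 * nm r ^ 2) := by ring
          _ ≤ 32 * B := by gcongr
      exact_mod_cast this
    rw [hI, mem_filter, Fintype.mem_piFinset]
    refine ⟨?_, dy_mono hqr, hle⟩
    have a0 : 1 ≤ 2 ^ dy2 p := Nat.one_le_two_pow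
    have a1 : 1 ≤ 2 ^ dy q := Nat.one_le_two_pow
    have a2 : 1 ≤ 2 ^ dy r := Nat.one_le_two_pow
    have e0 : 2 ^ dy2 p ≤ 32 * B := by
      refine le_trans ?_ hle
      calc 2 ^ dy2 p = 2 ^ dy2 p * 1 ^ 2 * 1 ^ 2 := by ring
        _ ≤ _ := by gcongr
    have e1 : 2 ^ dy q ≤ 32 * B := by
      refine le_trans ?_ hle
      calc 2 ^ dy q = 1 * (2 ^ dy q) * 1 := by ring
        _ ≤ 2 ^ dy2 p * (2 ^ dy q) ^ 2 * (2 ^ dy r) ^ 2 :=
            Nat.mul_le_mul (Nat.mul_le_mul a0 (Nat.le_self_pow (by norm_num) _))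
              (Nat.one_le_pow _ _ a2)
    have e2 : 2 ^ dy r ≤ 32 * B := by
      refine le_trans ?_ hle
      calc 2 ^ dy r = 1 * 1 * (2 ^ dy r) := by ring
        _ ≤ 2 ^ dy2 p * (2 ^ dy q) ^ 2 * (2 ^ dy r) ^ 2 :=
            Nat.mul_le_mul (Nat.mul_le_mul a0 (Nat.one_le_pow _ _ a1))
              (Nat.le_self_pow (by norm_num) _)
    intro m
    rw [mem_range, hLdef]
    fin_cases m
    · have := Nat.le_log_of_pow_le (b := 2) (by norm_num) e0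
      exact Nat.lt_succ_of_le this
    · have := Nat.le_log_of_pow_le (b := 2) (by norm_num) e1
      exact Nat.lt_succ_of_le this
    · have := Nat.le_log_of_pow_le (b := 2) (by norm_num) e2
      exact Nat.lt_succ_of_le this
  have hmem : ∀ (b : Fin 2 → Fin 3 → Fin 3 → ℤ) (p : Fin 2 → ℤ) (q r : Fin 3 → ℤ),
      Prim2 p → Prim q → Prim r → fv b p q r = 0 → InU b p q r →
      (p, q, r) ∈ cs b (2 ^ dy2 p) (2 ^ dy q) (2 ^ dy r) := by
    intro b p q r hp hq hr hf hU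
    unfold cs
    rw [mem_filter, mem_product, mem_product]
    refine ⟨⟨mem_bx2.2 (dy2_spec hp).1, mem_bx.2 (dy_spec hq).1, mem_bx.2 (dy_spec hr).1⟩,
      ⟨hp, hU.1, (dy2_spec hp).2⟩, ⟨hq, (dy_spec hq).2, hU.2.1⟩, hr, ?_, hU.2.2.2⟩
    rw [← fv_wv]
    exact hf
  refine ⟨(I.biUnion fun k => cs b (2 ^ k 0) (2 ^ k 1) (2 ^ k 2)) ∪
    (I.biUnion fun k => (cs (tb b) (2 ^ k 0) (2 ^ k 1) (2 ^ k 2)).image
      (fun x => (x.1, x.2.2, x.2.1))), ?_, ?_⟩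
  · intro p q r hp hq hr hf hU hH
    rw [mem_union]
    rcases le_total (nm q) (nm r) with h | h
    · left
      rw [mem_biUnion]
      exact ⟨![dy2 p, dy q, dy r], hidx p q r hp hq hr hH h, hmem b p q r hp hq hr hf hU⟩
    · right
      rw [mem_biUnion]
      refine ⟨![dy2 p, dy r, dy q], hidx p r q hp hr hq ?_ h, ?_⟩
      · refine le_trans (le_of_eq ?_) hH
        ring
      · rw [mem_image]
        exact ⟨(p, r, q), hmem (tb b) p r q hp hr hq (by rwa [fv_tb]) (inU_tb hU), rfl⟩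
  · -- the cardinality
    have hL4 : ((L : ℕ) : ℝ) ≤ C₂ * ((32 * B : ℕ) : ℝ) ^ (ε / 6) := by
      have := hlog (32 * B) (by omega)
      rw [hLdef]
      push_cast at this ⊢
      exact this
    have hcardI : (I.card : ℝ) ≤ (C₂ * ((32 * B : ℕ) : ℝ) ^ (ε / 6)) ^ 3 := by
      have h1 : I.card ≤ L ^ 3 := by
        refine (Finset.card_le_card (Finset.filter_subset _ _)).trans (le_of_eq ?_)
        rw [Fintype.card_piFinset]
        simp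
      calc (I.card : ℝ) ≤ ((L ^ 3 : ℕ) : ℝ) := by exact_mod_cast h1
        _ = (L : ℝ) ^ 3 := by push_cast; ring
        _ ≤ _ := pow_le_pow_left₀ (by positivity) hL4 3
    have hX0 : (0 : ℝ) < ((32 * B : ℕ) : ℝ) := by
      push_cast; linarith
    have hgen : ∀ (b : Fin 2 → Fin 3 → Fin 3 → ℤ) (C : ℝ), 0 < C →
        (∀ X₁ X₂ X₃ : ℕ, 1 ≤ X₁ → 1 ≤ X₂ → X₂ ≤ X₃ → ((cs b X₁ X₂ X₃).card : ℝ) ≤
          C * ((X₁ : ℝ) * (X₂ : ℝ) ^ 2 * (X₃ : ℝ) ^ 2) * ((X₁ * X₂ * X₃ : ℕ) : ℝ) ^ (ε / 2)) →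
        ∀ k ∈ I, ((cs b (2 ^ k 0) (2 ^ k 1) (2 ^ k 2)).card : ℝ) ≤
          C * ((32 * B : ℕ) : ℝ) ^ (1 + ε / 2) := by
      intro b C hC h k hk
      rw [hI, mem_filter] at hk
      obtain ⟨-, k12, hk32⟩ := hk
      have h12 : 2 ^ k 1 ≤ 2 ^ k 2 := Nat.pow_le_pow_right (by norm_num) k12
      have h1 := h (2 ^ k 0) (2 ^ k 1) (2 ^ k 2) Nat.one_le_two_pow Nat.one_le_two_pow h12
      have e1 : 2 ^ k 0 * 2 ^ k 1 * 2 ^ k 2 ≤ 32 * B := by
        refine le_trans ?_ hk32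
        exact Nat.mul_le_mul (Nat.mul_le_mul le_rfl (Nat.le_self_pow (by norm_num) _))
          (Nat.le_self_pow (by norm_num) _)
      have e2 : (((2 ^ k 0 : ℕ) : ℝ) * ((2 ^ k 1 : ℕ) : ℝ) ^ 2 * ((2 ^ k 2 : ℕ) : ℝ) ^ 2) ≤
          ((32 * B : ℕ) : ℝ) := by exact_mod_cast hk32
      calc ((cs b (2 ^ k 0) (2 ^ k 1) (2 ^ k 2)).card : ℝ)
          ≤ C * (((2 ^ k 0 : ℕ) : ℝ) * ((2 ^ k 1 : ℕ) : ℝ) ^ 2 * ((2 ^ k 2 : ℕ) : ℝ) ^ 2) *
            ((2 ^ k 0 * 2 ^ k 1 * 2 ^ k 2 : ℕ) : ℝ) ^ (ε / 2) := h1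
        _ ≤ C * ((32 * B : ℕ) : ℝ) * ((32 * B : ℕ) : ℝ) ^ (ε / 2) := by
            gcongr
        _ = C * ((32 * B : ℕ) : ℝ) ^ (1 + ε / 2) := by
            rw [Real.rpow_add hX0, Real.rpow_one]
            ring
    have hA := hgen b Ca hCa ha
    have hBb := hgen (tb b) Cb hCb hb'
    calc ((((I.biUnion fun k => cs b (2 ^ k 0) (2 ^ k 1) (2 ^ k 2)) ∪
        (I.biUnion fun k => (cs (tb b) (2 ^ k 0) (2 ^ k 1) (2 ^ k 2)).image
          (fun x => (x.1, x.2.2, x.2.1)))).card : ℕ) : ℝ)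
        ≤ ∑ k ∈ I, ((cs b (2 ^ k 0) (2 ^ k 1) (2 ^ k 2)).card : ℝ) +
          ∑ k ∈ I, ((cs (tb b) (2 ^ k 0) (2 ^ k 1) (2 ^ k 2)).card : ℝ) := by
          have h1 := Finset.card_union_le (I.biUnion fun k => cs b (2 ^ k 0) (2 ^ k 1) (2 ^ k 2))
            (I.biUnion fun k => (cs (tb b) (2 ^ k 0) (2 ^ k 1) (2 ^ k 2)).image
              (fun x => (x.1, x.2.2, x.2.1)))
          have h2 := Finset.card_biUnion_le (s := I)
            (t := fun k => cs b (2 ^ k 0) (2 ^ k 1) (2 ^ k 2))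
          have h3 := Finset.card_biUnion_le (s := I)
            (t := fun k => (cs (tb b) (2 ^ k 0) (2 ^ k 1) (2 ^ k 2)).image
              (fun x => (x.1, x.2.2, x.2.1)))
          have h4 : ∑ k ∈ I, ((cs (tb b) (2 ^ k 0) (2 ^ k 1) (2 ^ k 2)).image
              (fun x => (x.1, x.2.2, x.2.1))).card ≤
            ∑ k ∈ I, (cs (tb b) (2 ^ k 0) (2 ^ k 1) (2 ^ k 2)).card :=
            Finset.sum_le_sum fun k _ => Finset.card_image_le
          have h5 := h1.trans (Nat.add_le_add h2 (h3.trans h4))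
          exact_mod_cast h5
      _ ≤ ∑ k ∈ I, Ca * ((32 * B : ℕ) : ℝ) ^ (1 + ε / 2) +
          ∑ k ∈ I, Cb * ((32 * B : ℕ) : ℝ) ^ (1 + ε / 2) :=
          add_le_add (Finset.sum_le_sum hA) (Finset.sum_le_sum hBb)
      _ = (I.card : ℝ) * ((Ca + Cb) * ((32 * B : ℕ) : ℝ) ^ (1 + ε / 2)) := by
          simp only [Finset.sum_const, nsmul_eq_mul]
          ring
      _ ≤ (C₂ * ((32 * B : ℕ) : ℝ) ^ (ε / 6)) ^ 3 *
          ((Ca + Cb) * ((32 * B : ℕ) : ℝ) ^ (1 + ε / 2)) := by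
          gcongr
      _ = (Ca + Cb) * C₂ ^ 3 * (((32 * B : ℕ) : ℝ) ^ (ε / 6 * 3) *
          ((32 * B : ℕ) : ℝ) ^ (1 + ε / 2)) := by
          rw [mul_pow, ← Real.rpow_natCast (((32 * B : ℕ) : ℝ) ^ (ε / 6)) 3,
            ← Real.rpow_mul hX0.le]
          push_cast
          ring
      _ = (Ca + Cb) * C₂ ^ 3 * ((32 * B : ℕ) : ℝ) ^ (1 + ε) := by
          rw [← Real.rpow_add hX0]
          congr 2
          ring
      _ = (Ca + Cb) * C₂ ^ 3 * (32 : ℝ) ^ (1 + ε) * (B : ℝ) ^ (1 + ε) := by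
          push_cast
          rw [Real.mul_rpow (by norm_num) (by linarith)]
          ring

/-- The exponent: the least `t` such that `t L + K` is in the cone generated by the classes
`(1,0,0)`, `(0,1,0)`, `(0,0,1)`, `(-1,1,1)`, where `L = (l 0, l 1, l 2)` and `K = (-1,-2,-2)`. -/
noncomputable def fuj (l : Fin 3 → ℝ) : ℝ :=
  sInf {t : ℝ | 0 ≤ t * l 1 - 2 ∧ 0 ≤ t * l 2 - 2 ∧
    0 ≤ (t * l 0 - 1) + (t * l 1 - 2) ∧ 0 ≤ (t * l 0 - 1) + (t * l 2 - 2)}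

/-- Comparison of the anticanonical height with the height of `L`. -/
theorem compare (M x y z l0 l1 l2 t T : ℝ) (hM : 1 ≤ M) (hx : 1 ≤ x) (hy : 1 ≤ y) (hz : 1 ≤ z)
    (hxyz : x ≤ M * (y * z)) (hl0 : 0 ≤ l0) (ht : 0 ≤ t)
    (h1 : 0 ≤ t * l1 - 2) (h2 : 0 ≤ t * l2 - 2) (h3 : 0 ≤ (t * l0 - 1) + (t * l1 - 2))
    (h4 : 0 ≤ (t * l0 - 1) + (t * l2 - 2)) (hT : x ^ l0 * y ^ l1 * z ^ l2 ≤ T) :
    x * y ^ 2 * z ^ 2 ≤ M * T ^ t := by
  have x0 : 0 < x := by linarith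
  have y0 : 0 < y := by linarith
  have z0 : 0 < z := by linarith
  have hH : (x ^ l0 * y ^ l1 * z ^ l2) ^ t ≤ T ^ t :=
    Real.rpow_le_rpow (by positivity) hT ht
  have hHe : (x ^ l0 * y ^ l1 * z ^ l2) ^ t = x ^ (t * l0) * y ^ (t * l1) * z ^ (t * l2) := by
    rw [Real.mul_rpow (by positivity) (by positivity), Real.mul_rpow (by positivity)
      (by positivity), ← Real.rpow_mul x0.le, ← Real.rpow_mul y0.le, ← Real.rpow_mul z0.le]
    simp only [mul_comm]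
  have hkey : x ^ (1 - t * l0) ≤ M * (y ^ (t * l1 - 2) * z ^ (t * l2 - 2)) := by
    have hyz1 : (1 : ℝ) ≤ y ^ (t * l1 - 2) := Real.one_le_rpow hy h1
    have hyz2 : (1 : ℝ) ≤ z ^ (t * l2 - 2) := Real.one_le_rpow hz h2
    rcases le_total (1 - t * l0) 0 with hc | hc
    · have e1 : x ^ (1 - t * l0) ≤ 1 := Real.rpow_le_one_of_one_le_of_nonpos hx hc
      refine e1.trans ?_
      exact one_le_mul_of_one_le_of_one_le hM (one_le_mul_of_one_le_of_one_le hyz1 hyz2)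
    · have hc1 : 1 - t * l0 ≤ 1 := by
        have : 0 ≤ t * l0 := mul_nonneg ht hl0
        linarith
      calc x ^ (1 - t * l0) ≤ (M * (y * z)) ^ (1 - t * l0) :=
            Real.rpow_le_rpow x0.le hxyz hc
        _ = M ^ (1 - t * l0) * (y ^ (1 - t * l0) * z ^ (1 - t * l0)) := by
            rw [Real.mul_rpow (by linarith) (by positivity), Real.mul_rpow y0.le z0.le]
        _ ≤ M ^ (1 : ℝ) * (y ^ (t * l1 - 2) * z ^ (t * l2 - 2)) := by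
            have M0 : 0 < M := by linarith
            apply mul_le_mul (Real.rpow_le_rpow_of_exponent_le hM hc1) _ (by positivity)
              (by positivity)
            exact mul_le_mul (Real.rpow_le_rpow_of_exponent_le hy (by linarith))
              (Real.rpow_le_rpow_of_exponent_le hz (by linarith)) (by positivity) (by positivity)
        _ = M * (y ^ (t * l1 - 2) * z ^ (t * l2 - 2)) := by rw [Real.rpow_one]
  calc x * y ^ 2 * z ^ 2 = x ^ (t * l0) * x ^ (1 - t * l0) * y ^ 2 * z ^ 2 := by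
        rw [← Real.rpow_add x0]
        have : t * l0 + (1 - t * l0) = 1 := by ring
        rw [this, Real.rpow_one]
    _ ≤ x ^ (t * l0) * (M * (y ^ (t * l1 - 2) * z ^ (t * l2 - 2))) * y ^ 2 * z ^ 2 := by
        gcongr
    _ = M * (x ^ (t * l0) * (y ^ (t * l1 - 2) * y ^ 2) * (z ^ (t * l2 - 2) * z ^ 2)) := by ring
    _ = M * (x ^ (t * l0) * y ^ (t * l1) * z ^ (t * l2)) := by
        have ey : y ^ (t * l1 - 2) * y ^ 2 = y ^ (t * l1) := by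
          rw [← Real.rpow_natCast y 2, ← Real.rpow_add y0]
          congr 1
          push_cast
          ring
        have ez : z ^ (t * l2 - 2) * z ^ 2 = z ^ (t * l2) := by
          rw [← Real.rpow_natCast z 2, ← Real.rpow_add z0]
          congr 1
          push_cast
          ring
        rw [ey, ez]
    _ ≤ M * T ^ t := by
        rw [← hHe]
        gcongr

open Classical in
/-- The weak form of the conjecture for all smooth divisors of type `(1,1,1)`. -/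
theorem main (hR : S_R) (hCD : S_CD) (hQA : S_QA) (hQB : S_QB) (hCMP : S_CMP) (hNUL : S_NUL)
    (hRK : S_RK) (hCLS : S_CLS) (hCEL : S_CEL) (hCON : S_CON) (hINV : S_INV)
    (hDET : S_DET) (hPT : S_PT)
    (b : Fin 2 → Fin 3 → Fin 3 → ℤ) (hb : Smooth b) :
    (∃ (p : Fin 2 → ℂ) (q r : Fin 3 → ℂ), p ≠ 0 ∧ q ≠ 0 ∧ r ≠ 0 ∧ fv b p q r = 0 ∧
      InU b p q r) ∧
    ∀ l : Fin 3 → ℝ, 0 ≤ l 0 → 0 < l 1 → 0 < l 2 →
      ∀ ε : ℝ, 0 < ε → ∃ C : ℝ, ∀ T : ℝ, 1 ≤ T →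
        {x : (Fin 2 → ℤ) × (Fin 3 → ℤ) × (Fin 3 → ℤ) | Rep2 x.1 ∧ Rep x.2.1 ∧ Rep x.2.2 ∧
          fv b x.1 x.2.1 x.2.2 = 0 ∧ InU b x.1 x.2.1 x.2.2 ∧
          (nm2 x.1 : ℝ) ^ l 0 * (nm x.2.1 : ℝ) ^ l 1 * (nm x.2.2 : ℝ) ^ l 2 ≤ T}.Finite ∧
        ({x : (Fin 2 → ℤ) × (Fin 3 → ℤ) × (Fin 3 → ℤ) | Rep2 x.1 ∧ Rep x.2.1 ∧ Rep x.2.2 ∧
          fv b x.1 x.2.1 x.2.2 = 0 ∧ InU b x.1 x.2.1 x.2.2 ∧
          (nm2 x.1 : ℝ) ^ l 0 * (nm x.2.1 : ℝ) ^ l 1 * (nm x.2.2 : ℝ) ^ l 2 ≤ T}.ncard : ℝ) ≤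
          C * T ^ (fuj l + ε) := by
  refine ⟨hPT b (hRK b hb) (hDET b hb), ?_⟩
  intro l hl0 hl1 hl2 ε hε
  set F : Set ℝ := {t : ℝ | 0 ≤ t * l 1 - 2 ∧ 0 ≤ t * l 2 - 2 ∧
    0 ≤ (t * l 0 - 1) + (t * l 1 - 2) ∧ 0 ≤ (t * l 0 - 1) + (t * l 2 - 2)} with hF
  have hne : F.Nonempty := by
    have e1 : 0 < 3 / l 1 := by positivity
    have e2 : 0 < 3 / l 2 := by positivity
    have e3 : 3 / l 1 * l 1 = 3 := div_mul_cancel₀ _ hl1.ne'
    have e4 : 3 / l 2 * l 2 = 3 := div_mul_cancel₀ _ hl2.ne'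
    have e5 : 0 ≤ (3 / l 1 + 3 / l 2) * l 0 := by positivity
    have e6 : 3 ≤ (3 / l 1 + 3 / l 2) * l 1 := by
      have : 0 ≤ 3 / l 2 * l 1 := by positivity
      rw [add_mul, e3]; linarith
    have e7 : 3 ≤ (3 / l 1 + 3 / l 2) * l 2 := by
      have : 0 ≤ 3 / l 1 * l 2 := by positivity
      rw [add_mul, e4]; linarith
    exact ⟨3 / l 1 + 3 / l 2, by linarith, by linarith, by linarith, by linarith⟩
  have hpos : ∀ t ∈ F, 0 ≤ t := by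
    intro t ht
    by_contra hc
    push Not at hc
    have h1 := ht.1
    have h2 : t * l 1 < 0 := mul_neg_of_neg_of_pos hc hl1
    linarith
  obtain ⟨t, htF, htlt⟩ := exists_lt_of_csInf_lt hne (show sInf F < sInf F + ε / 2 by linarith)
  have ht0 := hpos t htF
  have hfuj : fuj l = sInf F := rfl
  set ε' := ε / (2 * (t + 1)) with hε'
  have hε'0 : 0 < ε' := by positivity
  obtain ⟨C, hC, hanti⟩ := anti hR hCD hQA hQB hCMP hNUL hRK hCLS hCEL hCON hINV b hb ε' hε'0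
  set M : ℝ := 9 * (mxb b : ℝ) with hM
  have hM1 : 1 ≤ M := by
    have : (1 : ℝ) ≤ mxb b := by exact_mod_cast one_le_mxb b
    rw [hM]; linarith
  refine ⟨C * M ^ (1 + ε'), ?_⟩
  intro T hT
  have hT0 : 0 < T := by linarith
  have hTt1 : (1 : ℝ) ≤ T ^ t := Real.one_le_rpow hT ht0
  have hMT1 : (1 : ℝ) ≤ M * T ^ t := one_le_mul_of_one_le_of_one_le hM1 hTt1
  have hB1 : 1 ≤ ⌊M * T ^ t⌋₊ := by
    rw [Nat.one_le_floor_iff]
    exact hMT1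
  obtain ⟨S, hS, hcard⟩ := hanti ⌊M * T ^ t⌋₊ hB1
  have hsub : {x : (Fin 2 → ℤ) × (Fin 3 → ℤ) × (Fin 3 → ℤ) | Rep2 x.1 ∧ Rep x.2.1 ∧ Rep x.2.2 ∧
      fv b x.1 x.2.1 x.2.2 = 0 ∧ InU b x.1 x.2.1 x.2.2 ∧
      (nm2 x.1 : ℝ) ^ l 0 * (nm x.2.1 : ℝ) ^ l 1 * (nm x.2.2 : ℝ) ^ l 2 ≤ T} ⊆ ↑S := by
    rintro ⟨p, q, r⟩ ⟨hp, hq, hr, hf, hU, hH⟩
    simp only at hp hq hr hf hU hH
    apply hS p q r hp.1 hq.1 hr.1 hf hU
    have n0 := nm2_pos hp.1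
    have n1 := nm_pos hq.1
    have n2 := nm_pos hr.1
    have n0' : (1 : ℝ) ≤ (nm2 p : ℝ) := by exact_mod_cast n0
    have n1' : (1 : ℝ) ≤ (nm q : ℝ) := by exact_mod_cast n1
    have n2' : (1 : ℝ) ≤ (nm r : ℝ) := by exact_mod_cast n2
    have hht : (nm2 p : ℝ) ≤ M * ((nm q : ℝ) * (nm r : ℝ)) := by
      rw [hM]
      exact_mod_cast ht_le b hp.1 hf hU
    have h1 := compare M (nm2 p) (nm q) (nm r) (l 0) (l 1) (l 2) t T hM1 n0' n1' n2' hht hl0 ht0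
      htF.1 htF.2.1 htF.2.2.1 htF.2.2.2 hH
    have h2 : ((nm2 p * nm q ^ 2 * nm r ^ 2 : ℤ) : ℝ) ≤ M * T ^ t := by
      push_cast
      exact h1
    have h3 : 0 ≤ nm2 p * nm q ^ 2 * nm r ^ 2 := by positivity
    obtain ⟨n, hn'⟩ := Int.eq_ofNat_of_zero_le h3
    rw [hn'] at h2 ⊢
    have h4 : (n : ℝ) ≤ M * T ^ t := by exact_mod_cast h2
    exact_mod_cast Nat.le_floor h4
  have hfinS : (↑S : Set ((Fin 2 → ℤ) × (Fin 3 → ℤ) × (Fin 3 → ℤ))).Finite := S.finite_toSet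
  refine ⟨hfinS.subset hsub, ?_⟩
  have h5 := Set.ncard_le_ncard hsub hfinS
  rw [Set.ncard_coe_finset] at h5
  have h6 : ((⌊M * T ^ t⌋₊ : ℕ) : ℝ) ≤ M * T ^ t := Nat.floor_le (by positivity)
  refine le_trans (show _ ≤ (S.card : ℝ) by exact_mod_cast h5) ?_
  calc (S.card : ℝ) ≤ C * ((⌊M * T ^ t⌋₊ : ℕ) : ℝ) ^ (1 + ε') := hcard
    _ ≤ C * (M * T ^ t) ^ (1 + ε') := by
        apply mul_le_mul_of_nonneg_left _ hC.le
        exact Real.rpow_le_rpow (by positivity) h6 (by positivity)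
    _ = C * M ^ (1 + ε') * T ^ (t * (1 + ε')) := by
        rw [Real.mul_rpow (by linarith) (by positivity), ← Real.rpow_mul hT0.le]
        ring
    _ ≤ C * M ^ (1 + ε') * T ^ (fuj l + ε) := by
        apply mul_le_mul_of_nonneg_left _ (by positivity)
        apply Real.rpow_le_rpow_of_exponent_le hT
        rw [hfuj]
        have h7 : t * ε' ≤ ε / 2 := by
          rw [hε', mul_div_assoc', div_le_div_iff₀ (by positivity) (by norm_num)]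
          nlinarith
        have h8 : t * (1 + ε') = t + t * ε' := by ring
        rw [h8]
        linarith

end Pool.Agent.W978.QP
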